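import Pool.Agent.N489.DD.Fin

/-!
# Project DD: the assembly for normally transitive groups
-/

set_option autoImplicit false

open Set Topology Filter

noncomputable section

namespace Pool.Agent.N489.DD

open Pool.Agent.Y489.GE Pool.Agent.R203.IF Pool.Agent.N489.RW

/-- the theorem for a fixed set with the crossing property -/
theorem mainT3 (h_MF : S_MF) (h_DBL : S_DBL) (h_UNT : S_UNT)
    (h_main : ∀ (X : Type) [MetricSpace X] [CompactSpace X] (ρ : X → X) (U : Set X)
      (r D : ℝ) (q : ℕ), 0 < r → GeodSpace X → UniqGeod X r → Mirror X ρ U →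
      1 ≤ q → ∀ (K : Type) [MetricSpace K] [CompactSpace K], CovDim K q →
      ∀ f : K → X, Continuous f → (∀ k, f k ∈ U) → (∀ k, ∃ z, ρ z = z ∧ dist z (f k) ≤ D) →
      ¬ Defo {x | ρ x = x} f → SymGeod X ρ (4 * q * D))
    (X G : Type) [MetricSpace X] [CompactSpace X] [Group G] [MulAction G X] (F : Set X) (σ : G)
    (r D : ℝ) (q : ℕ) (hr : 0 < r) (hX : GeodSpace X) (hU : UniqGeod X r)
    (hT : TS X G F σ r) (hq : 1 ≤ q) (K : Type)
    [MetricSpace K] [CompactSpace K] (hK : CovDim K q) (f : K → X) (hf : Continuous f)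
    (hD : ∀ k, ∃ z ∈ F, dist z (f k) ≤ D)
    (hdefo : ¬ Defo F f) : ClosedGeod X (4 * q * D) := by
  have hne : ∃ p, p ∈ F := by
    by_contra hn
    push Not at hn
    refine hdefo (defo_of_mem hf fun k => ?_)
    obtain ⟨z, hz, _⟩ := hD k
    exact (hn z hz).elim
  obtain ⟨p, hp⟩ := hne
  obtain ⟨Y, _, i, ρ, U, hYc, hY, hYg, hYu⟩ := h_DBL X G F σ r hT ⟨p, hp⟩ hX hU
  have hYM := h_MF Y ρ U r hY.mir hYg hYu
  refine h_UNT X Y G F σ r i ρ U hr hT hY hYg hYu hYM _ ?_
  refine h_main Y ρ U r D q hr hYg hYu hY.mir hq K hK (fun k => i (f k))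
    (hY.iso.continuous.comp hf) (fun k => (hY.rng _).2 ⟨f k, rfl⟩) ?_ ?_
  · intro k
    obtain ⟨z, hz, hzD⟩ := hD k
    exact ⟨i z, (hY.fix z).2 hz, by rw [hY.iso.dist_eq]; exact hzD⟩
  rintro ⟨g, H, h1, h2, h3, h4⟩
  apply hdefo
  -- pull back along `i`
  have hinj : Function.Injective i := hY.iso.injective
  have hFU : ∀ y, ρ y = y → ∃ x ∈ F, i x = y := by
    intro y hy
    have hyU : y ∈ U := by
      rcases hY.mir.cover y with h | h
      · exact h
      · rwa [hy] at h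
    obtain ⟨x, rfl⟩ := (hY.rng y).1 hyU
    exact ⟨x, (hY.fix x).1 hy, rfl⟩
  have hinv : ∃ j : Y → X, ContinuousOn j {y | ρ y = y} ∧ ∀ y, ρ y = y → j y ∈ F ∧ i (j y) = y := by
    classical
    refine ⟨fun y => if h : ρ y = y then (hFU y h).choose else p, ?_, fun y hy => ?_⟩
    · have h5 : ∀ y, ρ y = y → i ((fun y => if h : ρ y = y then (hFU y h).choose else p) y) = y := by
        intro y hy
        simp only [dif_pos hy]
        exact (hFU y hy).choose_spec.2
      rw [hY.iso.isEmbedding.continuousOn_iff]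
      exact continuousOn_id.congr fun y hy => h5 y hy
    · simp only [dif_pos hy]
      exact (hFU y hy).choose_spec
  obtain ⟨j, hj1, hj2⟩ := hinv
  refine ⟨fun k => j (g k), fun k s => j (H k s), ?_, fun k => (hj2 _ (h2 k)).1, ?_, ?_⟩
  · rw [← continuousOn_univ]
    exact hj1.comp h1.continuousOn fun k _ => h2 k
  · have hset : {k : K | i (f k) ∈ {x | ρ x = x}} = {k | f k ∈ F} := by
      ext k
      exact hY.fix (f k)
    rw [hset] at h3
    refine hj1.comp h3 ?_
    rintro ⟨k, s⟩ ⟨hk, hs⟩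
    exact (h4 k ((hY.fix _).2 hk)).1 s hs
  · intro k hk
    obtain ⟨h5, h6, h7⟩ := h4 k ((hY.fix _).2 hk)
    refine ⟨fun s hs => (hj2 _ (h5 s hs)).1, by simp only [h6], ?_⟩
    simp only [h7]
    apply hinj
    exact (hj2 _ ((hY.fix _).2 hk)).2

end Pool.Agent.N489.DD
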