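import Pool.Agent.N489.RW.Stm3

/-!
# Project DD (helper489): the bound by the distance from the fixed point set

The legs of the star paths start at arbitrary points of `F` instead of one point `p`.
-/

set_option autoImplicit false

open Set Topology

noncomputable section

namespace Pool.Agent.N489.DD

open Pool.Agent.Y489.GE Pool.Agent.R203.IF Pool.Agent.N489.RW

/-- the local data: `q + 1` weights and families of paths starting in `F` -/
def DataF {X K : Type} [MetricSpace X] [TopologicalSpace K] (F : Set X) (b : ℝ) (q : ℕ)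
    (f : K → X) (t : ℕ → K → ℝ) (ρ : ℕ → K → ℝ → X) : Prop :=
  (∀ j, Continuous (t j)) ∧ (∀ j k, 0 ≤ t j k) ∧ (∀ k, ∃ j, j ≤ q ∧ 0 < t j k) ∧
  (∀ j, ContinuousOn (ρ j) {k | 0 < t j k}) ∧
  (∀ j k, 0 < t j k → ρ j k ∈ PF F b ∧ ρ j k b = f k)

/-- the local data exist -/
def S_SETF : Prop := ∀ (X K : Type) [MetricSpace X] [MetricSpace K] [CompactSpace K] (q : ℕ),
  CovDim K q → ∀ (r : ℝ) (m : X → X → ℝ → X), GMap X r m → ∀ (F : Set X) (D : ℝ), 0 ≤ D →
  ∀ ε : ℝ, 0 < ε → ε ≤ r → ∀ (f : K → X), Continuous f → (∀ k : K, ∃ c ∈ PF F D, c D = f k) →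
  ∃ (t : ℕ → K → ℝ) (ρ : ℕ → K → ℝ → X), DataF F (D + ε) q f t ρ

/-- the star paths with legs from `F` -/
def S_STAR3 : Prop := ∀ (X : Type) [MetricSpace X] (ρ : X → X) (U : Set X) (r : ℝ),
  Mirror X ρ U → MF X ρ U r → ∀ (K : Type) [TopologicalSpace K] (n : ℕ) (b : ℝ)
  (f : K → X), 1 ≤ n → 0 ≤ b → Continuous f → (∀ k, f k ∈ U) →
  ∀ (t : ℕ → K → ℝ) (leg : ℕ → K → ℝ → X), DataF {x | ρ x = x} b n f t leg →
  EE ρ U (n + 2) (2 * n * b) → Defo {x | ρ x = x} f

end Pool.Agent.N489.DD
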